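import Pool.Agent.Lib.MP_864d8b_co.Root

open Pool.Agent.Lib.MP_864d8b_co

namespace Pool.Agent.Results.MP_864d8b_co.Overlap

/-- The growth rates of the tessellations with valence sequence `σ`: the values `g` such that some
tessellation with valence sequence `σ` has growth rate `g` at every root. -/
def gammas (σ : List ℕ) : Set ENNReal :=
  {g | ∃ T : PlaneMap, T.IsTessellation ∧ T.HasSeq σ ∧ ∀ x : T.V, T.growth x = g}

/-- There are two distinct polymorphic valence sequences whose growth-rate intervals meet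
(witnesses: `[4,4,4,14]` and `[4,6,6,6]`, common point `4.64`). -/
theorem result :
    ∃ σ τ : List ℕ, 3 ≤ σ.length ∧ 3 ≤ τ.length ∧ (∀ p ∈ σ, 3 ≤ p) ∧ (∀ p ∈ τ, 3 ≤ p) ∧
      ¬ σ.IsRotated τ ∧ ¬ σ.IsRotated τ.reverse ∧ Polymorphic σ ∧ Polymorphic τ ∧
      ∃ c : ℝ, ENNReal.ofReal c ∈ Set.Icc (sInf (gammas σ)) (sSup (gammas σ)) ∩
        Set.Icc (sInf (gammas τ)) (sSup (gammas τ)) := by
  have hlt : ENNReal.ofReal (116 / 25) < ENNReal.ofReal (929 / 200) :=
    (ENNReal.ofReal_lt_ofReal_iff (by norm_num)).2 (by norm_num)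
  have mA : sysA.strips.map.growth ((0, 0) : ℤ × ℤ) ∈ gammas [4, 4, 4, 14] :=
    ⟨_, sysA.strips.isTessellation, sysA.hasSeq, fun x => sysA.growth_eq x _⟩
  have mB : sysB.strips.map.growth ((0, 0) : ℤ × ℤ) ∈ gammas [4, 4, 4, 14] :=
    ⟨_, sysB.strips.isTessellation, sysB.hasSeq, fun x => sysB.growth_eq x _⟩
  have mC : sysC.strips.map.growth ((0, 0) : ℤ × ℤ) ∈ gammas [4, 6, 6, 6] :=
    ⟨_, sysC.strips.isTessellation, sysC.hasSeq, fun x => sysC.growth_eq x _⟩
  have mD : sysD.strips.map.growth ((0, 0) : ℤ × ℤ) ∈ gammas [4, 6, 6, 6] :=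
    ⟨_, sysD.strips.isTessellation, sysD.hasSeq, fun x => sysD.growth_eq x _⟩
  refine ⟨[4, 4, 4, 14], [4, 6, 6, 6], by decide, by decide, by decide, by decide, by decide,
    by decide, ⟨sysA.strips.map, sysB.strips.map, sysA.strips.isTessellation,
      sysB.strips.isTessellation, sysA.hasSeq, sysB.hasSeq, fun h => ?_⟩,
    ⟨sysC.strips.map, sysD.strips.map, sysC.strips.isTessellation,
      sysD.strips.isTessellation, sysC.hasSeq, sysD.hasSeq, fun h => ?_⟩, 116 / 25,
    ⟨?_, ?_⟩, ?_, ?_⟩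
  · obtain ⟨x, hx⟩ := PlaneMap.growth_iso h ((0, 0) : ℤ × ℤ)
    exact absurd ((growthB.trans hx.ge).trans (growthA x)) (not_le.2 hlt)
  · obtain ⟨x, hx⟩ := PlaneMap.growth_iso h ((0, 0) : ℤ × ℤ)
    exact absurd ((growthD.trans hx.ge).trans (growthC x)) (not_le.2 hlt)
  · exact (sInf_le mA).trans (growthA _)
  · exact (hlt.le.trans growthB).trans (le_sSup mB)
  · exact (sInf_le mC).trans (growthC _)
  · exact (hlt.le.trans growthD).trans (le_sSup mD)

end Pool.Agent.Results.MP_864d8b_co.Overlap
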